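import Pool.Agent.Work.MP_013ca9_lc_F.Main

/-!
Fast online conversion of the triple uniform (Good-Turing) offline estimator.

The definitions of the estimator `q`, of its normalization `qNorm`, of online estimators, of the
regret and of exact polynomial-time computability are in `Pool/Agent/Work/MP_013ca9_lc_F/Defs.lean`;
that of `PolyTime` is in `Pool/Agent/Work/TMLib/Classes.lean`.
-/

namespace Pool.Agent.Results.MP_013ca9_lc.FastGoodTuring

open Pool.Agent.Work.MP_013ca9_lc_F

/-- For every finite alphabet with `d ≥ 1` symbols there is a time-consistent estimator `p` whose
regret against the triple uniform estimator, and also against its normalization to total mass one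
at each length, is at most `2 log (n + 2)` for every `n`, and whose values are computed exactly, as
fractions, in time polynomial in the length of the string. -/
theorem result (d : ℕ) (hd : 1 ≤ d) :
    ∃ p : List (Fin d) → ℝ, Online p ∧
      (∀ n : ℕ, RegretLE p q n (2 * Real.log (n + 2))) ∧
      (∀ n : ℕ, RegretLE p qNorm n (2 * Real.log (n + 2))) ∧ PolyTimeExact p :=
  main hd

end Pool.Agent.Results.MP_013ca9_lc.FastGoodTuring
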